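import Pool.Agent.W_d741g_h37.Rev

/-! MP_d741cf_al, Garside part: the Artin monoid of type F4, finite checks. -/

namespace AG

/-- The complements in the Artin monoid of type `F4` (generators `0, 1, 2, 3`, `m = 3, 4, 3`). -/
def C4 : Fin 4 → Fin 4 → List (Fin 4)
  | 0, 1 => [1, 0]
  | 1, 0 => [0, 1]
  | 1, 2 => [2, 1, 2]
  | 2, 1 => [1, 2, 1]
  | 2, 3 => [3, 2]
  | 3, 2 => [2, 3]
  | _, t => [t]

/-- A Boolean check of the cube condition. -/
def cubeB {n : ℕ} (C : Fin n → Fin n → List (Fin n)) (k : ℕ) (r s t : Fin n) : Bool :=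
  match rev C k (C r s) (C r t) with
  | some (A, B) =>
    match rev C k (C s t) (C s r ++ A) with
    | some (D, []) => rev C k (C t r ++ B) (C t s ++ D) == some ([], [])
    | _ => false
  | none => false

theorem cube_of_cubeB {n : ℕ} {C : Fin n → Fin n → List (Fin n)} {k : ℕ}
    (h : ∀ r s t : Fin n, r ≠ s → r ≠ t → s ≠ t → cubeB C k r s t = true) : Cube C k := by
  intro r s t hrs hrt hst
  have h1 := h r s t hrs hrt hst
  unfold cubeB at h1
  cases h2 : rev C k (C r s) (C r t) with
  | none => rw [h2] at h1; simp at h1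
  | some x =>
    obtain ⟨A, B⟩ := x
    rw [h2] at h1
    simp only at h1
    cases h3 : rev C k (C s t) (C s r ++ A) with
    | none => rw [h3] at h1; simp at h1
    | some y =>
      obtain ⟨D, E⟩ := y
      rw [h3] at h1
      cases E with
      | cons e E => simp at h1
      | nil =>
        simp only [beq_iff_eq] at h1
        refine ⟨A, B, D, rfl, ?_, ?_⟩
        · have := rev_sound _ _ _ _ _ h3
          simpa using this.symm
        · have := rev_sound _ _ _ _ _ h1
          simpa using this

theorem C4_length : ∀ s t, (C4 s t).length = (C4 t s).length := by decide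

theorem C4_cube : Cube C4 12 := cube_of_cubeB (by decide)

theorem C4_reverse : ∀ s t : Fin 4, s ≠ t → Br C4 (s :: C4 s t).reverse (t :: C4 t s).reverse := by
  have h : ∀ s t : Fin 4, s ≠ t →
      rev C4 12 (s :: C4 s t).reverse (t :: C4 t s).reverse = some ([], []) := by decide
  intro s t hst
  have := rev_sound _ _ _ _ _ (h s t hst)
  simpa using this

end AG
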