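import Pool.Agent.W_d741g_h37.Mon

/-! MP_d741cf_al, Garside part: the group of fractions with respect to a central element. -/

namespace AG

open AM

variable {α : Type*} {C : α → α → List α}

/-- The relators `s C(s,t) (t C(t,s))⁻¹`. -/
def grpRels (C : α → α → List α) : Set (FreeGroup α) :=
  {r | ∃ s t : α, s ≠ t ∧ r = ((s :: C s t).map FreeGroup.of).prod *
    (((t :: C t s).map FreeGroup.of).prod)⁻¹}

/-- The group presented by the same relations. -/
abbrev AGp (C : α → α → List α) : Type _ := PresentedGroup (grpRels C)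

/-- The map from the monoid to the group. -/
def toGrp (C : α → α → List α) : AM C →* AGp C :=
  AM.lift (fun s => PresentedGroup.of s) (by
    intro s t hst
    have h1 : ∀ u : List α, (u.map fun s => (PresentedGroup.of s : AGp C)).prod =
        PresentedGroup.mk (grpRels C) ((u.map FreeGroup.of).prod) := by
      intro u
      rw [map_list_prod, List.map_map]
      rfl
    have h2 : PresentedGroup.mk (grpRels C) (((s :: C s t).map FreeGroup.of).prod *
        (((t :: C t s).map FreeGroup.of).prod)⁻¹) = 1 :=
      PresentedGroup.one_of_mem ⟨s, t, hst, rfl⟩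
    rw [map_mul, map_inv, mul_inv_eq_one, ← h1, ← h1] at h2
    simpa using h2)

theorem toGrp_of (s : α) : toGrp C (of C s) = PresentedGroup.of s := AM.lift_of _ _ s

variable [DecidableEq α] (hG : Gar C) {D : AM C} (hD : ∀ s, D * of C s = of C s * D)
  (hd : ∀ s, ∃ y, of C s * y = D)

include hD in
theorem comm_D (x : AM C) : D * x = x * D := by
  induction x using ind with
  | h u =>
    induction u with
    | nil => rw [mk_nil, mul_one, one_mul]
    | cons s u ih => rw [mk_cons, ← mul_assoc, hD, mul_assoc, ih, mul_assoc]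

include hD in
theorem comm_D_pow (n : ℕ) (x : AM C) : D ^ n * x = x * D ^ n := by
  have h : Commute D x := comm_D hD x
  exact (h.pow_left n)

include hD hd in
/-- Every element divides a power of the central element. -/
theorem dvd_pow (x : AM C) : ∃ (n : ℕ) (y : AM C), x * y = D ^ n := by
  induction x using ind with
  | h u =>
    induction u with
    | nil => exact ⟨0, 1, by rw [mk_nil, mul_one, pow_zero]⟩
    | cons s u ih =>
      obtain ⟨n, y, hy⟩ := ih
      obtain ⟨s', hs'⟩ := hd s
      refine ⟨n + 1, y * s', ?_⟩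
      rw [mk_cons]
      calc of C s * mk C u * (y * s') = of C s * (mk C u * y) * s' := by
            simp only [mul_assoc]
        _ = of C s * s' * D ^ n := by
            rw [hy, mul_assoc, comm_D_pow hD, mul_assoc]
        _ = D ^ (n + 1) := by rw [hs', pow_succ']

include hD in
/-- Powers of `D` form an Ore set. -/
@[reducible] def oreD : OreLocalization.OreSet (Submonoid.powers D) where
  ore_right_cancel := by
    rintro r₁ r₂ ⟨_, n, rfl⟩ h
    exact ⟨⟨_, n, rfl⟩, by
      change D ^ n * r₁ = D ^ n * r₂
      rw [comm_D_pow hD, comm_D_pow hD]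
      exact h⟩
  oreNum r _ := r
  oreDenom _ s := s
  ore_eq := by
    rintro r ⟨_, n, rfl⟩
    exact comm_D_pow hD n r

include hG hD hd in
/-- The monoid embeds in the group. -/
theorem toGrp_injective : Function.Injective (toGrp C) := by
  classical
  let _ := oreD hD
  let L := OreLocalization (Submonoid.powers D) (AM C)
  let ν : AM C →* L := OreLocalization.numeratorHom
  have hν : Function.Injective ν := by
    intro x y h
    change OreLocalization.oreDiv x (1 : Submonoid.powers D) = OreLocalization.oreDiv y 1 at h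
    rw [OreLocalization.oreDiv_eq_iff] at h
    obtain ⟨u, v, h1, h2⟩ := h
    have h3 : (u : AM C) = v := by
      have : (u : AM C) * ((1 : Submonoid.powers D) : AM C) = v * ((1 : Submonoid.powers D) : AM C) := h2
      simpa using this
    have h4 : (u : AM C) * y = v * x := h1
    rw [← h3] at h4
    exact (mul_left_cancel' hG h4).symm
  have hu : ∀ s, IsUnit (ν (of C s)) := by
    intro s
    obtain ⟨y, hy⟩ := hd s
    have hDu : IsUnit (ν D) := OreLocalization.numerator_isUnit (⟨D, Submonoid.mem_powers D⟩ :
      Submonoid.powers D)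
    obtain ⟨w, hw⟩ := hDu
    have hy2 : of C s * (y * of C s) = of C s * D := by
      rw [← mul_assoc, hy, hD]
    have hy3 : y * of C s = D := mul_left_cancel' hG hy2
    refine ⟨⟨ν (of C s), ν y * (w⁻¹ : Lˣ), ?_, ?_⟩, rfl⟩
    · rw [← mul_assoc, ← map_mul, hy, ← hw, Units.mul_inv]
    · have hc : ν (of C s) * (w : L) = w * ν (of C s) := by
        rw [hw, ← map_mul, ← map_mul, hD]
      have hc2 : ((w⁻¹ : Lˣ) : L) * ν (of C s) = ν (of C s) * ((w⁻¹ : Lˣ) : L) := by
        calc ((w⁻¹ : Lˣ) : L) * ν (of C s) = ((w⁻¹ : Lˣ) : L) * (ν (of C s) * w) * ((w⁻¹ : Lˣ) : L) := by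
              rw [mul_assoc, mul_assoc, Units.mul_inv, mul_one]
          _ = ν (of C s) * ((w⁻¹ : Lˣ) : L) := by
              rw [hc, ← mul_assoc, Units.inv_mul, one_mul]
      rw [mul_assoc, hc2, ← mul_assoc, ← map_mul, hy3, ← hw, Units.mul_inv]
  choose U hU using hu
  have hUl : ∀ u : List α, (((u.map U).prod : Lˣ) : L) = ν (mk C u) := by
    intro u
    induction u with
    | nil => simp [mk_nil]
    | cons s u ih => rw [List.map_cons, List.prod_cons, Units.val_mul, ih, hU, mk_cons, map_mul]
  let ψ : AGp C →* Lˣ := PresentedGroup.toGroup (f := U) (by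
    rintro r ⟨s, t, hst, rfl⟩
    rw [map_mul, map_inv, mul_inv_eq_one, map_list_prod, map_list_prod, List.map_map, List.map_map]
    have e : (FreeGroup.lift U) ∘ FreeGroup.of = U := by
      funext x
      simp
    have e' : ∀ u : List α, u.map ((FreeGroup.lift U) ∘ FreeGroup.of) = u.map U := by
      intro u
      rw [e]
    rw [e', e']
    apply Units.ext
    rw [hUl, hUl, mk_cons, mk_cons, rel hst])
  have hψ : ∀ x, ((ψ (toGrp C x) : Lˣ) : L) = ν x := by
    intro x
    induction x using ind with
    | h u =>
      induction u with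
      | nil => simp [mk_nil]
      | cons s u ih =>
        rw [mk_cons, map_mul, map_mul, Units.val_mul, ih, map_mul, toGrp_of]
        congr 1
        change ((PresentedGroup.toGroup _ (PresentedGroup.of s) : Lˣ) : L) = _
        rw [PresentedGroup.toGroup.of, hU]
  intro x y h
  apply hν
  rw [← hψ, ← hψ, h]

include hG hD hd in
/-- Every element of the group is `D⁻ⁿ x` with `x` in the monoid. -/
theorem exists_pow_mul (g : AGp C) : ∃ (n : ℕ) (x : AM C), toGrp C D ^ n * g = toGrp C x := by
  have hc : ∀ g : AGp C, toGrp C D * g = g * toGrp C D := by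
    intro g
    have : g ∈ Subgroup.centralizer {toGrp C D} := by
      have h1 : (⊤ : Subgroup (AGp C)) ≤ Subgroup.centralizer {toGrp C D} := by
        rw [← PresentedGroup.closure_range_of, Subgroup.closure_le]
        rintro _ ⟨s, rfl⟩
        rw [SetLike.mem_coe, Subgroup.mem_centralizer_iff]
        rintro _ rfl
        rw [← toGrp_of, ← map_mul, ← map_mul, hD]
      exact h1 (Subgroup.mem_top g)
    exact Subgroup.mem_centralizer_iff.mp this _ rfl
  have hc' : ∀ (n : ℕ) (g : AGp C), toGrp C D ^ n * g = g * toGrp C D ^ n := by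
    intro n g
    have h : Commute (toGrp C D) g := hc g
    exact (h.pow_left n)
  have hg : g ∈ Subgroup.closure (Set.range (PresentedGroup.of : α → AGp C)) := by
    rw [PresentedGroup.closure_range_of]
    exact Subgroup.mem_top g
  induction hg using Subgroup.closure_induction with
  | mem x hx =>
    obtain ⟨s, rfl⟩ := hx
    exact ⟨0, of C s, by rw [pow_zero, one_mul, toGrp_of]⟩
  | one => exact ⟨0, 1, by rw [pow_zero, one_mul, map_one]⟩
  | mul g h _ _ ihg ihh =>
    obtain ⟨n, x, hx⟩ := ihg
    obtain ⟨m, y, hy⟩ := ihh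
    refine ⟨n + m, x * y, ?_⟩
    rw [map_mul, ← hx, ← hy, pow_add, mul_assoc, mul_assoc, ← mul_assoc (toGrp C D ^ m) g h,
      hc' m g, mul_assoc]
  | inv g _ ih =>
    obtain ⟨n, x, hx⟩ := ih
    obtain ⟨m, y, hy⟩ := dvd_pow hD hd x
    refine ⟨m, D ^ n * y, ?_⟩
    have h1 : g = (toGrp C D ^ n)⁻¹ * toGrp C x := by rw [← hx]; group
    rw [h1, mul_inv_rev, inv_inv, ← map_pow, ← hy, map_mul, map_mul, map_pow]
    have h2 : toGrp C x * toGrp C y * ((toGrp C x)⁻¹ * toGrp C D ^ n) =
        toGrp C x * toGrp C y * (toGrp C x)⁻¹ * toGrp C D ^ n := by group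
    have h3 : toGrp C x * toGrp C y * (toGrp C x)⁻¹ = toGrp C y := by
      have h4 : toGrp C y * toGrp C x = toGrp C x * toGrp C y := by
        rw [← map_mul, ← map_mul]
        congr 1
        apply mul_left_cancel' hG (x := x)
        rw [← mul_assoc, hy, comm_D_pow hD]
      rw [← h4]
      group
    rw [h2, h3, hc' n]

end AG
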