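import Pool.Agent.W_d741g_h37.F4
import Pool.Agent.W_d741g_h37.Grp

/-! MP_d741cf_al, Garside part: the Artin monoid of type F4. -/

namespace AG

open AM

theorem gar4 : Gar C4 := ⟨C4_length, ⟨12, C4_cube⟩, C4_reverse⟩

/-- The Artin monoid of type `F4`. -/
abbrev M4 : Type := AM C4

/-- The Artin group of type `F4`. -/
abbrev A4 : Type := AGp C4

/-- The word of the least common multiple of the letters in `T` (a list). -/
def dW (T : List (Fin 4)) : List (Fin 4) := (lcmW C4 40 T).getD []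

/-- The subset `T` as a list. -/
def lst (T : Finset (Fin 4)) : List (Fin 4) := (List.finRange 4).filter (· ∈ T)

theorem mem_lst {T : Finset (Fin 4)} {t : Fin 4} : t ∈ lst T ↔ t ∈ T := by
  simp [lst]

/-- `Δ_T`. -/
def dl (T : Finset (Fin 4)) : M4 := mk C4 (dW (lst T))

theorem lcmW_lst : ∀ T : Finset (Fin 4), (lcmW C4 40 (lst T)).isSome = true := by decide

theorem lcmW_eq (T : Finset (Fin 4)) : lcmW C4 40 (lst T) = some (dW (lst T)) := by
  have h := lcmW_lst T
  unfold dW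
  cases h1 : lcmW C4 40 (lst T) with
  | none => rw [h1] at h; simp at h
  | some d => rfl

/-- `Δ_T` is a palindrome. -/
theorem dW_reverse : ∀ T : Finset (Fin 4),
    rev C4 40 (dW (lst T)).reverse (dW (lst T)) = some ([], []) := by decide

theorem opp_dl (T : Finset (Fin 4)) : opp gar4 (dl T) = dl T := by
  have h := rev_eq (dW_reverse T)
  unfold dl
  rw [opp_mk]
  simpa [mk_nil] using h

/-- Common left multiples: if every `t ∈ T` divides `x` on the left, so does `Δ_T`. -/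
theorem dl_dvd_left {T : Finset (Fin 4)} {x : M4} (h : ∀ t ∈ T, ∃ y, x = of C4 t * y) :
    ∃ y, x = dl T * y :=
  lcmW_dvd gar4 (lcmW_eq T) x fun t ht => h t (mem_lst.mp ht)

theorem of_dvd_dl {T : Finset (Fin 4)} {t : Fin 4} (ht : t ∈ T) : ∃ y, dl T = of C4 t * y :=
  dvd_lcmW (lcmW_eq T) t (mem_lst.mpr ht)

/-- Common right divisors. -/
theorem dl_dvd_right {T : Finset (Fin 4)} {x : M4} (h : ∀ t ∈ T, ∃ y, x = y * of C4 t) :
    ∃ y, x = y * dl T := by
  obtain ⟨y, hy⟩ := dl_dvd_left (T := T) (x := opp gar4 x) fun t ht => by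
    obtain ⟨y, hy⟩ := h t ht
    exact ⟨opp gar4 y, by rw [hy, opp_mul, opp_of]⟩
  refine ⟨opp gar4 y, ?_⟩
  rw [← opp_opp gar4 x, hy, opp_mul, opp_dl]

theorem of_dvd_dl_right {T : Finset (Fin 4)} {t : Fin 4} (ht : t ∈ T) :
    ∃ y, dl T = y * of C4 t := by
  obtain ⟨y, hy⟩ := of_dvd_dl ht
  exact ⟨opp gar4 y, by rw [← opp_dl, hy, opp_mul, opp_of]⟩

/-- `Δ`. -/
def Dl : M4 := dl Finset.univ

theorem Dl_word_comm : ∀ s : Fin 4,
    rev C4 60 (dW (lst Finset.univ) ++ [s]) (s :: dW (lst Finset.univ)) = some ([], []) := by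
  decide

theorem Dl_comm (s : Fin 4) : Dl * of C4 s = of C4 s * Dl := by
  have h := rev_eq (Dl_word_comm s)
  rw [mk_nil, mul_one, mul_one, mk_append] at h
  exact h

theorem of_dvd_Dl (s : Fin 4) : ∃ y, of C4 s * y = Dl := by
  obtain ⟨y, hy⟩ := of_dvd_dl (Finset.mem_univ s)
  exact ⟨y, hy.symm⟩

theorem toGrp4_injective : Function.Injective (toGrp C4) :=
  toGrp_injective gar4 Dl_comm of_dvd_Dl

theorem exists_pow_mul4 (g : A4) : ∃ (n : ℕ) (x : M4), toGrp C4 Dl ^ n * g = toGrp C4 x :=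
  exists_pow_mul gar4 Dl_comm of_dvd_Dl g

end AG
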