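import Pool.Agent.W_d741g_h37.Rev

/-! MP_d741cf_al, Garside part: the monoid of a complemented presentation. -/

namespace AG

variable {α : Type*} {C : α → α → List α}

/-- The congruence as a setoid. -/
def brSetoid (C : α → α → List α) : Setoid (List α) where
  r := Br C
  iseqv := ⟨Br.refl, Br.symm, Br.trans⟩

/-- The monoid presented by the relations `s C(s,t) = t C(t,s)`. -/
def AM (C : α → α → List α) : Type _ := Quotient (brSetoid C)

namespace AM

/-- The class of a word. -/
def mk (C : α → α → List α) (u : List α) : AM C := Quotient.mk (brSetoid C) u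

/-- The class of a letter. -/
def of (C : α → α → List α) (s : α) : AM C := mk C [s]

theorem mk_eq {u v : List α} : mk C u = mk C v ↔ Br C u v := Quotient.eq (r := brSetoid C)

theorem ind {P : AM C → Prop} (h : ∀ u, P (mk C u)) : ∀ x, P x := Quotient.ind h

instance : Monoid (AM C) where
  one := mk C []
  mul := Quotient.map₂ (fun u v => u ++ v) fun _ _ h _ _ h' => Br.append h h'
  mul_assoc := by
    rintro ⟨u⟩ ⟨v⟩ ⟨w⟩
    exact congrArg (mk C) (List.append_assoc u v w)
  one_mul := by
    rintro ⟨u⟩
    rfl
  mul_one := by
    rintro ⟨u⟩
    exact congrArg (mk C) (List.append_nil u)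

theorem mk_append (u v : List α) : mk C (u ++ v) = mk C u * mk C v := rfl

theorem mk_nil : mk C [] = 1 := rfl

theorem mk_cons (s : α) (v : List α) : mk C (s :: v) = of C s * mk C v := rfl

theorem mk_eq_prod (u : List α) : mk C u = (u.map (of C)).prod := by
  induction u with
  | nil => rfl
  | cons s u ih => rw [mk_cons, ih, List.map_cons, List.prod_cons]

theorem rel {s t : α} (h : s ≠ t) : of C s * mk C (C s t) = of C t * mk C (C t s) := by
  rw [← mk_cons, ← mk_cons, mk_eq]
  have := Br.swap (C := C) h []
  simpa using this

/-- Universal property. -/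
def lift {N : Type*} [Monoid N] (f : α → N)
    (hf : ∀ s t : α, s ≠ t → f s * ((C s t).map f).prod = f t * ((C t s).map f).prod) :
    AM C →* N where
  toFun := Quotient.lift (fun u : List α => (u.map f).prod) (by
    intro u v h
    change Br C u v at h
    induction h with
    | nil => rfl
    | cons s _ ih => simp only [List.map_cons, List.prod_cons, ih]
    | swap h w =>
      simp only [List.map_cons, List.prod_cons, List.map_append, List.prod_append, ← mul_assoc,
        hf _ _ h]
    | trans _ _ ih ih' => exact ih.trans ih')
  map_one' := rfl
  map_mul' := by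
    rintro ⟨u⟩ ⟨v⟩
    change ((u ++ v).map f).prod = _
    rw [List.map_append, List.prod_append]

theorem lift_mk {N : Type*} [Monoid N] (f : α → N)
    (hf : ∀ s t : α, s ≠ t → f s * ((C s t).map f).prod = f t * ((C t s).map f).prod)
    (u : List α) : lift f hf (mk C u) = (u.map f).prod := rfl

theorem lift_of {N : Type*} [Monoid N] (f : α → N)
    (hf : ∀ s t : α, s ≠ t → f s * ((C s t).map f).prod = f t * ((C t s).map f).prod)
    (s : α) : lift f hf (of C s) = f s := by
  change lift f hf (mk C [s]) = f s
  rw [lift_mk]
  simp

theorem hom_ext {N : Type*} [Monoid N] {f g : AM C →* N} (h : ∀ s, f (of C s) = g (of C s)) :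
    f = g := by
  ext x
  induction x using ind with
  | h u =>
    induction u with
    | nil => rw [mk_nil, map_one, map_one]
    | cons s u ih => rw [mk_cons, map_mul, map_mul, h, ih]

end AM

/-- The hypotheses on the presentation: homogeneous, cube condition, invariant under reversal. -/
structure Gar [DecidableEq α] (C : α → α → List α) : Prop where
  len : ∀ s t, (C s t).length = (C t s).length
  cube : ∃ k, Cube C k
  rev : ∀ s t : α, s ≠ t → Br C (s :: C s t).reverse (t :: C t s).reverse

namespace AM

variable [DecidableEq α] (hG : Gar C)

/-- The length. -/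
def lenHom (hG : Gar C) : AM C → ℕ :=
  Quotient.lift (fun u : List α => u.length) fun _ _ h => Br.length_eq hG.len h

theorem lenHom_mk (u : List α) : lenHom hG (mk C u) = u.length := rfl

theorem lenHom_one : lenHom hG (1 : AM C) = 0 := rfl

theorem lenHom_of (s : α) : lenHom hG (of C s) = 1 := rfl

theorem lenHom_mul (x y : AM C) : lenHom hG (x * y) = lenHom hG x + lenHom hG y := by
  induction x using ind with
  | h u =>
    induction y using ind with
    | h v =>
      rw [← mk_append, lenHom_mk, lenHom_mk, lenHom_mk, List.length_append]

theorem lenHom_eq_zero {x : AM C} (h : lenHom hG x = 0) : x = 1 := by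
  induction x using ind with
  | h u =>
    rw [lenHom_mk, List.length_eq_zero_iff] at h
    rw [h, mk_nil]

include hG

theorem mul_left_cancel' {x y z : AM C} (h : x * y = x * z) : y = z := by
  induction x using ind with
  | h u =>
    induction y using ind with
    | h v =>
      induction z using ind with
      | h w =>
        rw [← mk_append, ← mk_append, mk_eq] at h
        obtain ⟨k, hk⟩ := hG.cube
        exact mk_eq.mpr (Br.cancel hG.len hk u h)

/-- Common multiples of two letters. -/
theorem cmp {s t : α} (hst : s ≠ t) {x y : AM C} (h : of C s * x = of C t * y) :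
    ∃ z, x = mk C (C s t) * z ∧ y = mk C (C t s) * z := by
  induction x using ind with
  | h u =>
    induction y using ind with
    | h v =>
      rw [← mk_cons, ← mk_cons, mk_eq] at h
      obtain ⟨k, hk⟩ := hG.cube
      rcases Br.cmp hG.len hk h with ⟨h', _⟩ | ⟨_, w, h1, h2⟩
      · exact absurd h' hst
      · exact ⟨mk C w, mk_eq.mpr h1, mk_eq.mpr h2⟩

/-- Common multiples of two words: least common multiples are computed by reversing. -/
theorem rev_dvd {n : ℕ} {a b a' b' : List α} (h : rev C n a b = some (a', b')) {x y : AM C}
    (hxy : mk C a * x = mk C b * y) : ∃ z, x = mk C a' * z ∧ y = mk C b' * z := by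
  induction x using ind with
  | h u =>
    induction y using ind with
    | h v =>
      rw [← mk_append, ← mk_append, mk_eq] at hxy
      obtain ⟨k, hk⟩ := hG.cube
      obtain ⟨p, h1, h2⟩ := rev_complete hG.len hk hxy h
      exact ⟨mk C p, mk_eq.mpr h1, mk_eq.mpr h2⟩

omit hG in
/-- Reversing gives a common multiple. -/
theorem rev_eq {n : ℕ} {a b a' b' : List α} (h : rev C n a b = some (a', b')) :
    mk C a * mk C a' = mk C b * mk C b' := by
  rw [← mk_append, ← mk_append, mk_eq]
  exact rev_sound _ _ _ _ _ h

/-- The anti-automorphism reversing words. -/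
def opp : AM C → AM C :=
  Quotient.map (fun u : List α => u.reverse) fun _ _ h => Br.reverse hG.rev h

theorem opp_mk (u : List α) : opp hG (mk C u) = mk C u.reverse := rfl

theorem opp_opp (x : AM C) : opp hG (opp hG x) = x := by
  induction x using ind with
  | h u => rw [opp_mk, opp_mk, List.reverse_reverse]

theorem opp_mul (x y : AM C) : opp hG (x * y) = opp hG y * opp hG x := by
  induction x using ind with
  | h u =>
    induction y using ind with
    | h v => rw [← mk_append, opp_mk, opp_mk, opp_mk, ← mk_append, List.reverse_append]

theorem opp_of (s : α) : opp hG (of C s) = of C s := rfl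

theorem opp_inj {x y : AM C} (h : opp hG x = opp hG y) : x = y := by
  rw [← opp_opp hG x, h, opp_opp]

theorem mul_right_cancel' {x y z : AM C} (h : y * x = z * x) : y = z := by
  apply opp_inj hG
  apply mul_left_cancel' hG (x := opp hG x)
  rw [← opp_mul, ← opp_mul, h]

theorem isCancelMul : IsCancelMul (AM C) where
  mul_left_cancel _ _ _ h := mul_left_cancel' hG h
  mul_right_cancel _ _ _ h := mul_right_cancel' hG h

omit hG in
/-- The least common multiple of a list of letters, computed by reversing with fuel `k`. -/
def lcmW (C : α → α → List α) (k : ℕ) : List α → Option (List α)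
  | [] => some []
  | t :: l =>
    match lcmW C k l with
    | some d =>
      match rev C k d [t] with
      | some (d', _) => some (d ++ d')
      | none => none
    | none => none

/-- If all letters of `l` divide `x` on the left, so does the least common multiple. -/
theorem lcmW_dvd {k : ℕ} : ∀ {l d : List α}, lcmW C k l = some d → ∀ x : AM C,
    (∀ t ∈ l, ∃ y, x = of C t * y) → ∃ y, x = mk C d * y := by
  intro l
  induction l with
  | nil =>
    intro d hd x _
    simp only [lcmW, Option.some.injEq] at hd
    subst hd
    exact ⟨x, by rw [mk_nil, one_mul]⟩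
  | cons t l ih =>
    intro d hd x hx
    rw [lcmW] at hd
    cases h1 : lcmW C k l with
    | none => rw [h1] at hd; simp at hd
    | some d0 =>
      rw [h1] at hd
      simp only at hd
      cases h2 : rev C k d0 [t] with
      | none => rw [h2] at hd; simp at hd
      | some z =>
        obtain ⟨d', e'⟩ := z
        rw [h2] at hd
        simp only [Option.some.injEq] at hd
        subst hd
        obtain ⟨y, hy⟩ := ih h1 x fun t' ht' => hx t' (List.mem_cons_of_mem _ ht')
        obtain ⟨y', hy'⟩ := hx t List.mem_cons_self
        obtain ⟨z, hz, _⟩ := rev_dvd hG h2 (x := y) (y := y') (by rw [← hy, hy']; rfl)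
        exact ⟨z, by rw [hy, hz, mk_append, mul_assoc]⟩

omit hG in
/-- The letters of `l` divide the least common multiple on the left. -/
theorem dvd_lcmW {k : ℕ} : ∀ {l d : List α}, lcmW C k l = some d → ∀ t ∈ l,
    ∃ y, mk C d = of C t * y := by
  intro l
  induction l with
  | nil => intro d _ t ht; simp at ht
  | cons t0 l ih =>
    intro d hd t ht
    rw [lcmW] at hd
    cases h1 : lcmW C k l with
    | none => rw [h1] at hd; simp at hd
    | some d0 =>
      rw [h1] at hd
      simp only at hd
      cases h2 : rev C k d0 [t0] with
      | none => rw [h2] at hd; simp at hd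
      | some z =>
        obtain ⟨d', e'⟩ := z
        rw [h2] at hd
        simp only [Option.some.injEq] at hd
        subst hd
        rcases List.mem_cons.mp ht with rfl | ht
        · exact ⟨mk C e', by rw [mk_append, rev_eq h2]; rfl⟩
        · obtain ⟨y, hy⟩ := ih h1 t ht
          exact ⟨y * mk C d', by rw [mk_append, hy, mul_assoc]⟩

end AM

end AG
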