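import Mathlib

/-! MP_d741cf_al, Garside part: complemented homogeneous monoid presentations, word reversing,
cancellation and least common multiples (cube condition). -/

namespace AG

variable {α : Type*}

/-- The congruence on words generated by `s C(s,t) ~ t C(t,s)` for `s ≠ t`. -/
inductive Br (C : α → α → List α) : List α → List α → Prop
  | nil : Br C [] []
  | cons (s : α) {u v : List α} (h : Br C u v) : Br C (s :: u) (s :: v)
  | swap {s t : α} (h : s ≠ t) (w : List α) : Br C (s :: (C s t ++ w)) (t :: (C t s ++ w))
  | trans {u v w : List α} (h : Br C u v) (h' : Br C v w) : Br C u w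

variable {C : α → α → List α}

theorem Br.refl : ∀ u : List α, Br C u u
  | [] => Br.nil
  | s :: u => Br.cons s (Br.refl u)

theorem Br.symm {u v : List α} (h : Br C u v) : Br C v u := by
  induction h with
  | nil => exact Br.nil
  | cons s _ ih => exact Br.cons s ih
  | swap h w => exact Br.swap h.symm w
  | trans _ _ ih ih' => exact ih'.trans ih

theorem Br.append_right {u v : List α} (h : Br C u v) (w : List α) : Br C (u ++ w) (v ++ w) := by
  induction h with
  | nil => exact Br.refl _
  | cons s _ ih => exact Br.cons s ih
  | swap h x =>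
    have h1 := Br.swap (C := C) h (x ++ w)
    simpa [List.append_assoc] using h1
  | trans _ _ ih ih' => exact ih.trans ih'

theorem Br.append_left (w : List α) {u v : List α} (h : Br C u v) : Br C (w ++ u) (w ++ v) := by
  induction w with
  | nil => exact h
  | cons s w ih => exact Br.cons s ih

theorem Br.append {u v u' v' : List α} (h : Br C u v) (h' : Br C u' v') :
    Br C (u ++ u') (v ++ v') := (h.append_right u').trans (h'.append_left v)

theorem Br.length_eq (hC : ∀ s t, (C s t).length = (C t s).length) {u v : List α}
    (h : Br C u v) : u.length = v.length := by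
  induction h with
  | nil => rfl
  | cons s _ ih => simp [ih]
  | swap h w => simp [hC]
  | trans _ _ ih ih' => exact ih.trans ih'

variable [DecidableEq α]

/-- Word reversing: `rev n a b = some (a', b')` gives `a a' = b b'`, the least common multiple. -/
def rev (C : α → α → List α) : ℕ → List α → List α → Option (List α × List α)
  | 0, _, _ => none
  | _ + 1, [], b => some (b, [])
  | _ + 1, s :: a, [] => some ([], s :: a)
  | n + 1, s :: a, t :: b =>
    if s = t then rev C n a b
    else
      match rev C n a (C s t), rev C n b (C t s) with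
      | some (a1, c1), some (b1, d1) =>
        match rev C n c1 d1 with
        | some (e, f) => some (a1 ++ e, b1 ++ f)
        | none => none
      | _, _ => none

/-- The recursive step of `rev` for two different letters. -/
theorem rev_ne {n : ℕ} {s t : α} (hst : s ≠ t) {a b a' b' : List α}
    (h : rev C (n + 1) (s :: a) (t :: b) = some (a', b')) :
    ∃ a1 c1 b1 d1 e f, rev C n a (C s t) = some (a1, c1) ∧ rev C n b (C t s) = some (b1, d1) ∧
      rev C n c1 d1 = some (e, f) ∧ a' = a1 ++ e ∧ b' = b1 ++ f := by
  rw [rev, if_neg hst] at h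
  cases h1 : rev C n a (C s t) with
  | none => rw [h1] at h; simp at h
  | some x =>
    obtain ⟨a1, c1⟩ := x
    cases h2 : rev C n b (C t s) with
    | none => rw [h1, h2] at h; simp at h
    | some y =>
      obtain ⟨b1, d1⟩ := y
      rw [h1, h2] at h
      simp only at h
      cases h3 : rev C n c1 d1 with
      | none => rw [h3] at h; simp at h
      | some z =>
        obtain ⟨e, f⟩ := z
        rw [h3] at h
        simp only [Option.some.injEq, Prod.mk.injEq] at h
        exact ⟨a1, c1, b1, d1, e, f, rfl, rfl, h3, h.1.symm, h.2.symm⟩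

/-- Soundness of reversing. -/
theorem rev_sound : ∀ (n : ℕ) (a b a' b' : List α), rev C n a b = some (a', b') →
    Br C (a ++ a') (b ++ b') := by
  intro n
  induction n with
  | zero => intro a b a' b' h; simp [rev] at h
  | succ n ih =>
    intro a b a' b' h
    match a, b with
    | [], b =>
      simp only [rev, Option.some.injEq, Prod.mk.injEq] at h
      obtain ⟨rfl, rfl⟩ := h
      simpa using Br.refl _
    | s :: a, [] =>
      simp only [rev, Option.some.injEq, Prod.mk.injEq] at h
      obtain ⟨rfl, rfl⟩ := h
      simpa using Br.refl _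
    | s :: a, t :: b =>
      by_cases hst : s = t
      · subst hst
        rw [rev, if_pos rfl] at h
        exact Br.cons s (ih _ _ _ _ h)
      · obtain ⟨a1, c1, b1, d1, e, f, h1, h2, h3, rfl, rfl⟩ := rev_ne hst h
        have e1 := ih _ _ _ _ h1
        have e2 := ih _ _ _ _ h2
        have e3 := ih _ _ _ _ h3
        -- s a a1 e = s C(s,t) c1 e = t C(t,s) c1 e = t C(t,s) d1 f = t b b1 f
        have f1 : Br C (s :: a ++ (a1 ++ e)) (s :: (C s t ++ (c1 ++ e))) := by
          have := Br.cons s (e1.append_right e)
          simpa [List.append_assoc] using this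
        have f2 : Br C (s :: (C s t ++ (c1 ++ e))) (t :: (C t s ++ (c1 ++ e))) :=
          Br.swap hst _
        have f3 : Br C (t :: (C t s ++ (c1 ++ e))) (t :: (C t s ++ (d1 ++ f))) :=
          Br.cons t (e3.append_left _)
        have f4 : Br C (t :: (C t s ++ (d1 ++ f))) (t :: b ++ (b1 ++ f)) := by
          have := Br.cons t (e2.symm.append_right f)
          simpa [List.append_assoc] using this
        exact f1.trans (f2.trans (f3.trans f4))

/-- The comparison of two words with the same first letters. -/
def Cmp (C : α → α → List α) (s t : α) (u v : List α) : Prop :=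
  (s = t ∧ Br C u v) ∨ (s ≠ t ∧ ∃ w, Br C u (C s t ++ w) ∧ Br C v (C t s ++ w))

/-- The divisibility statement for words `s :: u`, `u` of length `n`. -/
def PP (C : α → α → List α) (n : ℕ) : Prop :=
  ∀ (s t : α) (u v : List α), u.length = n → Br C (s :: u) (t :: v) → Cmp C s t u v

/-- Completeness of reversing for words of length `≤ n`. -/
theorem rev_complete_aux (hC : ∀ s t, (C s t).length = (C t s).length) {n : ℕ}
    (hP : ∀ m < n, PP C m) : ∀ (k : ℕ) (a b w1 w2 a' b' : List α), (a ++ w1).length ≤ n →
    Br C (a ++ w1) (b ++ w2) → rev C k a b = some (a', b') →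
    ∃ p, Br C w1 (a' ++ p) ∧ Br C w2 (b' ++ p) := by
  intro k
  induction k with
  | zero => intro a b w1 w2 a' b' _ _ h; simp [rev] at h
  | succ k ih =>
    intro a b w1 w2 a' b' hl hb h
    match a, b with
    | [], b =>
      simp only [rev, Option.some.injEq, Prod.mk.injEq] at h
      obtain ⟨rfl, rfl⟩ := h
      exact ⟨w2, hb, Br.refl _⟩
    | s :: a, [] =>
      simp only [rev, Option.some.injEq, Prod.mk.injEq] at h
      obtain ⟨rfl, rfl⟩ := h
      exact ⟨w1, Br.refl _, hb.symm⟩
    | s :: a, t :: b =>
      have hl' : (a ++ w1).length < n := by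
        simp only [List.cons_append, List.length_cons] at hl
        omega
      have hcmp := hP _ hl' s t (a ++ w1) (b ++ w2) rfl hb
      by_cases hst : s = t
      · subst hst
        rw [rev, if_pos rfl] at h
        rcases hcmp with ⟨_, hb'⟩ | ⟨h', _⟩
        · exact ih a b w1 w2 a' b' hl'.le hb' h
        · exact absurd rfl h'
      · obtain ⟨a1, c1, b1, d1, e, f, h1, h2, h3, rfl, rfl⟩ := rev_ne hst h
        rcases hcmp with ⟨h', _⟩ | ⟨_, w, hu, hv⟩
        · exact absurd h' hst
        · have lu := hu.length_eq hC
          have lv := hv.length_eq hC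
          have lb := hb.length_eq hC
          obtain ⟨q, hq1, hq2⟩ := ih a (C s t) w1 w a1 c1 hl'.le hu h1
          obtain ⟨q', hq1', hq2'⟩ := ih b (C t s) w2 w b1 d1
            (by simp only [List.cons_append, List.length_cons] at lb; omega) hv h2
          have hqq : Br C (c1 ++ q) (d1 ++ q') := hq2.symm.trans hq2'
          have lq : (c1 ++ q).length ≤ n := by
            have := hq2.length_eq hC
            rw [List.length_append, List.length_append] at lu
            rw [List.length_append] at hl'
            omega
          obtain ⟨p, hp1, hp2⟩ := ih c1 d1 q q' e f lq hqq h3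
          refine ⟨p, hq1.trans ?_, hq1'.trans ?_⟩
          · have := hp1.append_left a1
            simpa [List.append_assoc] using this
          · have := hp2.append_left b1
            simpa [List.append_assoc] using this

theorem cancel_aux {n : ℕ} (hP : ∀ m < n, PP C m) : ∀ (a w1 w2 : List α),
    (a ++ w1).length ≤ n → Br C (a ++ w1) (a ++ w2) → Br C w1 w2 := by
  intro a
  induction a with
  | nil => intro w1 w2 _ h; exact h
  | cons s a ih =>
    intro w1 w2 hl h
    have hl' : (a ++ w1).length < n := by
      simp only [List.cons_append, List.length_cons] at hl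
      omega
    rcases hP _ hl' s s (a ++ w1) (a ++ w2) rfl h with ⟨_, hb'⟩ | ⟨h', _⟩
    · exact ih w1 w2 hl'.le hb'
    · exact absurd rfl h'

/-- The cube condition on triples of different letters. -/
def Cube (C : α → α → List α) (k : ℕ) : Prop :=
  ∀ r s t : α, r ≠ s → r ≠ t → s ≠ t → ∃ A B D, rev C k (C r s) (C r t) = some (A, B) ∧
    Br C (C s r ++ A) (C s t ++ D) ∧ Br C (C t r ++ B) (C t s ++ D)

theorem PP_all (hC : ∀ s t, (C s t).length = (C t s).length) {k : ℕ} (hcube : Cube C k) :
    ∀ n, PP C n := by
  intro n
  induction n using Nat.strong_induction_on with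
  | _ n hP =>
  -- transitivity
  have htr : ∀ (s r t : α) (u y v : List α), y.length = n → Cmp C s r u y → Cmp C r t y v →
      Cmp C s t u v := by
    intro s r t u y v hy h1 h2
    rcases h1 with ⟨rfl, h1⟩ | ⟨hsr, w1, hu, hy1⟩
    · rcases h2 with ⟨rfl, h2⟩ | ⟨hst, w, h2, h3⟩
      · exact Or.inl ⟨rfl, h1.trans h2⟩
      · exact Or.inr ⟨hst, w, h1.trans h2, h3⟩
    · rcases h2 with ⟨rfl, h2⟩ | ⟨hrt, w2, hy2, hv⟩
      · exact Or.inr ⟨hsr, w1, hu, h2.symm.trans hy1⟩
      · have hyy : Br C (C r s ++ w1) (C r t ++ w2) := hy1.symm.trans hy2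
        have hl : (C r s ++ w1).length ≤ n := by
          rw [← hy1.length_eq hC, hy]
        by_cases hst : s = t
        · subst hst
          have hw := cancel_aux hP _ _ _ hl hyy
          exact Or.inl ⟨rfl, hu.trans ((hw.append_left _).trans hv.symm)⟩
        · obtain ⟨A, B, D, hrev, hA, hB⟩ := hcube r s t (Ne.symm hsr) hrt hst
          obtain ⟨p, hp1, hp2⟩ := rev_complete_aux hC hP k _ _ _ _ _ _ hl hyy hrev
          refine Or.inr ⟨hst, D ++ p, ?_, ?_⟩
          · refine hu.trans ((hp1.append_left _).trans ?_)
            have := hA.append_right p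
            simpa [List.append_assoc] using this
          · refine hv.trans ((hp2.append_left _).trans ?_)
            have := hB.append_right p
            simpa [List.append_assoc] using this
  have key : ∀ x y : List α, Br C x y → x.length = n + 1 → ∀ (s t : α) (u v : List α),
      x = s :: u → y = t :: v → Cmp C s t u v := by
    intro x y h
    induction h with
    | nil => intro hl; simp at hl
    | cons s0 h _ =>
      intro _ s t u v hx hy
      simp only [List.cons.injEq] at hx hy
      obtain ⟨rfl, rfl⟩ := hx
      obtain ⟨rfl, rfl⟩ := hy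
      exact Or.inl ⟨rfl, h⟩
    | swap h w =>
      intro _ s t u v hx hy
      simp only [List.cons.injEq] at hx hy
      obtain ⟨rfl, rfl⟩ := hx
      obtain ⟨rfl, rfl⟩ := hy
      exact Or.inr ⟨h, w, Br.refl _, Br.refl _⟩
    | trans h h' ih ih' =>
      rename_i x z y
      intro hl s t u v hx hy
      have hlz : z.length = n + 1 := by rw [← h.length_eq hC, hl]
      obtain ⟨r, y0, hz⟩ : ∃ r y0, z = r :: y0 := by
        cases z with
        | nil => simp at hlz
        | cons r y0 => exact ⟨r, y0, rfl⟩
      have hy0 : y0.length = n := by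
        rw [hz] at hlz
        simpa using hlz
      exact htr s r t u y0 v hy0 (ih hl s r u y0 hx hz) (ih' hlz r t y0 v hz hy)
  intro s t u v hu h
  exact key _ _ h (by simp [hu]) s t u v rfl rfl

section main

variable (hC : ∀ s t, (C s t).length = (C t s).length) {k : ℕ} (hcube : Cube C k)

include hC hcube

theorem Br.cmp {s t : α} {u v : List α} (h : Br C (s :: u) (t :: v)) : Cmp C s t u v :=
  PP_all hC hcube _ s t u v rfl h

/-- Left cancellation. -/
theorem Br.cancel (a : List α) {u v : List α} (h : Br C (a ++ u) (a ++ v)) : Br C u v :=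
  cancel_aux (fun m _ => PP_all hC hcube m) a u v le_rfl h

/-- Completeness of reversing. -/
theorem rev_complete {n : ℕ} {a b w1 w2 a' b' : List α} (hb : Br C (a ++ w1) (b ++ w2))
    (h : rev C n a b = some (a', b')) : ∃ p, Br C w1 (a' ++ p) ∧ Br C w2 (b' ++ p) :=
  rev_complete_aux hC (fun m _ => PP_all hC hcube m) n a b w1 w2 a' b' le_rfl hb h

end main

/-- If the relations are invariant under reversal, so is the congruence. -/
theorem Br.reverse (hr : ∀ s t : α, s ≠ t → Br C (s :: C s t).reverse (t :: C t s).reverse)
    {u v : List α} (h : Br C u v) : Br C u.reverse v.reverse := by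
  induction h with
  | nil => exact Br.nil
  | cons s _ ih =>
    rw [List.reverse_cons, List.reverse_cons]
    exact ih.append_right _
  | swap h w =>
    rename_i s t
    have h1 := (hr s t h).append_left w.reverse
    simpa [List.append_assoc] using h1
  | trans _ _ ih ih' => exact ih.trans ih'

end AG
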